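import Pool.Agent.W811.LW.Stm

set_option autoImplicit false
open Finset Filter Topology
open scoped ENNReal

namespace Pool.Agent.W292.LW
open Pool.Agent.W811.LW

lemma geo (r : ℝ) (h0 : 0 ≤ r) (h1 : r ≤ 1 / 2) :
    ∑' n : ℕ, ENNReal.ofReal (r ^ n) ≤ 2 := by
  rw [← ENNReal.ofReal_tsum_of_nonneg (fun n => pow_nonneg h0 n)
    (summable_geometric_of_lt_one h0 (by linarith)),
    tsum_geometric_of_lt_one h0 (by linarith)]
  rw [show (2 : ℝ≥0∞) = ENNReal.ofReal 2 by simp]
  apply ENNReal.ofReal_le_ofReal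
  rw [inv_le_comm₀ (by linarith) (by norm_num)]
  linarith

lemma sumZ (r : ℝ) (h0 : 0 ≤ r) (h1 : r ≤ 1 / 2) (g : ℕ → ℤ) (hg : Function.Injective g)
    (F : ℤ → ℝ≥0∞) (hs : Function.support F ⊆ Set.range g) (c : ℝ≥0∞)
    (h : ∀ n, F (g n) ≤ c * ENNReal.ofReal (r ^ n)) : ∑' k, F k ≤ c * 2 := by
  rw [← hg.tsum_eq hs]
  calc ∑' n, F (g n) ≤ ∑' n, c * ENNReal.ofReal (r ^ n) := ENNReal.tsum_le_tsum h
    _ = c * ∑' n, ENNReal.ofReal (r ^ n) := ENNReal.tsum_mul_left
    _ ≤ c * 2 := by gcongr; exact geo r h0 h1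

lemma et_nonneg (G : ℝ) (hG : 0 < G) (i : ℤ) : 0 ≤ et G i := by
  unfold et; split_ifs <;> positivity

/-- `et i * G^(-2i) = G^(-|i|)` -/
lemma et_abs (G : ℝ) (hG : 0 < G) (i : ℤ) : et G i * G ^ (-2 * i) = G ^ (-|i|) := by
  unfold et
  split_ifs with h
  · rw [← zpow_add₀ hG.ne', abs_of_nonneg h]; congr 1; ring
  · rw [← zpow_add₀ hG.ne', abs_of_neg (by omega)]; congr 1; ring

lemma et_neg (G : ℝ) (hG : 0 < G) (i : ℤ) : et G i * G ^ (-4 * i) = et G (-i) := by
  unfold et
  rcases lt_trichotomy i 0 with h | h | h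
  · rw [if_neg (by omega), if_pos (by omega), ← zpow_add₀ hG.ne']; congr 1; ring
  · subst h; simp
  · rw [if_pos (by omega), if_neg (by omega), ← zpow_add₀ hG.ne']; congr 1; ring

lemma et_shift (G : ℝ) (hG : 1 ≤ G) (k u : ℤ) (hu : 0 ≤ u) : et G k ≤ G ^ (-u) * et G (k + u) := by
  unfold et
  have h0 : G ≠ 0 := by linarith
  split_ifs with h1 h2 h2
  · rw [← zpow_add₀ h0]; apply zpow_le_zpow_right₀ hG; omega
  · omega
  · rw [← zpow_add₀ h0]; apply zpow_le_zpow_right₀ hG; omega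
  · rw [← zpow_add₀ h0]; apply zpow_le_zpow_right₀ hG; omega

lemma rs_pos (y : ℝ) (hy : 0 < y) : 0 < rs y := by
  unfold rs; positivity

lemma rs_sq (y : ℝ) (hy : 0 < y) : rs y ^ 2 = 1 / y := by
  unfold rs
  rw [inv_pow, Real.sq_sqrt hy.le, one_div]

/-- case (b) -/
lemma caseB (G : ℝ) (hG : 1 ≤ G) (c K y : ℝ) (hc : 0 < c) (hK : 1 ≤ K) (hKc : 1 / c ≤ K)
    (hy : 0 < y) (i : ℤ) (h : c ≤ (G ^ 4) ^ (-2 * i) * y ^ 2) :
    et G i * rs y ≤ K * G ^ (-|i|) := by
  have hG0 : 0 < G := by linarith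
  have hx : (G ^ 4) ^ (-2 * i) = (G ^ (-2 * i)) ^ 4 := by
    rw [← zpow_natCast, ← zpow_natCast, ← zpow_mul, ← zpow_mul]; congr 1; push_cast; ring
  have hr : rs y ≤ K * G ^ (-2 * i) := by
    have hKK : 1 / c ≤ K ^ 4 := by
      have : K ≤ K ^ 4 := by
        calc K = K ^ 1 := (pow_one K).symm
          _ ≤ K ^ 4 := pow_le_pow_right₀ hK (by norm_num)
      linarith
    have h4 : rs y ^ 4 ≤ (K * G ^ (-2 * i)) ^ 4 := by
      have e1 : rs y ^ 4 = 1 / y ^ 2 := by
        calc rs y ^ 4 = (rs y ^ 2) ^ 2 := by ring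
          _ = 1 / y ^ 2 := by rw [rs_sq y hy]; ring
      rw [e1, mul_pow, ← hx]
      rw [div_le_iff₀ (by positivity)]
      have h5 : 1 ≤ K ^ 4 * c := by
        rw [div_le_iff₀ hc] at hKK; exact hKK
      have h6 : K ^ 4 * c ≤ K ^ 4 * ((G ^ 4) ^ (-2 * i) * y ^ 2) := by gcongr
      nlinarith [h5, h6]
    exact le_of_pow_le_pow_left₀ (by norm_num) (by positivity) h4
  calc et G i * rs y ≤ et G i * (K * G ^ (-2 * i)) := by
        apply mul_le_mul_of_nonneg_left hr (et_nonneg G hG0 i)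
    _ = K * (et G i * G ^ (-2 * i)) := by ring
    _ = K * G ^ (-|i|) := by rw [et_abs G hG0]

/-- case (c) -/
lemma caseC (G : ℝ) (hG : 1 < G) (c C1 C2 y z : ℝ) (I0 : ℕ) (hC1 : 1 ≤ C1) (hC2 : 1 ≤ C2)
    (hc : C1 * c ≤ (G ^ 4) ^ (-2 * (I0 : ℤ)))
    (hy : 0 < y) (hz : 0 < z) (i i' : ℤ) (h : (G ^ 4) ^ (-2 * i) * y ^ 2 < c)
    (h1 : (G ^ 4) ^ (-2 * i') ≤ C1 * y ^ 2) (h2 : z ≤ C2 * (G ^ 4) ^ (-2 * i) * y) :
    (I0 : ℤ) ≤ i + i' ∧
    et G i * rs y ≤ Real.sqrt C2 * G ^ (-(i + i')) * (et G i' * rs z) := by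
  have hG0 : 0 < G := by linarith
  have hD1 : 1 < G ^ 4 := one_lt_pow₀ hG (by norm_num)
  have hD0 : 0 < G ^ 4 := by positivity
  have hx0 : 0 < (G ^ 4) ^ (-2 * i) := by positivity
  have hI : (I0 : ℤ) ≤ i + i' := by
    have h3 : (G ^ 4) ^ (-2 * (i + i')) < (G ^ 4) ^ (-2 * (I0 : ℤ)) := by
      calc (G ^ 4) ^ (-2 * (i + i')) = (G ^ 4) ^ (-2 * i) * (G ^ 4) ^ (-2 * i') := by
            rw [← zpow_add₀ hD0.ne']; congr 1; ring
        _ ≤ (G ^ 4) ^ (-2 * i) * (C1 * y ^ 2) := by gcongr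
        _ = C1 * ((G ^ 4) ^ (-2 * i) * y ^ 2) := by ring
        _ < C1 * c := by gcongr
        _ ≤ _ := hc
    have h4 := (zpow_lt_zpow_iff_right₀ hD1).1 h3
    omega
  refine ⟨hI, ?_⟩
  set s : ℝ := G ^ (-4 * i) with hs
  have hs0 : 0 < s := by positivity
  have hx : (G ^ 4) ^ (-2 * i) = s ^ 2 := by
    rw [hs, ← zpow_natCast, ← zpow_natCast, ← zpow_mul, ← zpow_mul]; congr 1; push_cast; ring
  have hr : rs y ≤ s * Real.sqrt C2 * rs z := by
    have h5 : Real.sqrt z ≤ Real.sqrt C2 * (s * Real.sqrt y) := by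
      calc Real.sqrt z ≤ Real.sqrt (C2 * (s ^ 2 * y)) := by
            apply Real.sqrt_le_sqrt
            rw [hx] at h2; linarith
        _ = Real.sqrt C2 * (s * Real.sqrt y) := by
            rw [Real.sqrt_mul (by linarith), Real.sqrt_mul (by positivity), Real.sqrt_sq hs0.le]
    have hsy : 0 < Real.sqrt y := Real.sqrt_pos.2 hy
    have hsz : 0 < Real.sqrt z := Real.sqrt_pos.2 hz
    unfold rs
    rw [← div_eq_mul_inv, le_div_iff₀ hsz, inv_mul_le_iff₀ hsy]
    linarith
  have hsh := et_shift G hG.le (-i) (i + i') (by omega)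
  rw [show -i + (i + i') = i' by ring] at hsh
  calc et G i * rs y ≤ et G i * (s * Real.sqrt C2 * rs z) := by
        apply mul_le_mul_of_nonneg_left hr (et_nonneg G hG0 i)
    _ = (et G i * s) * (Real.sqrt C2 * rs z) := by ring
    _ = et G (-i) * (Real.sqrt C2 * rs z) := by rw [hs, et_neg G hG0]
    _ ≤ (G ^ (-(i + i')) * et G i') * (Real.sqrt C2 * rs z) := by
        apply mul_le_mul_of_nonneg_right hsh
        have := rs_pos z hz
        positivity
    _ = _ := by ring

theorem kern : KERN := by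
  intro G c5 C1 C2 E hG hc5 hC1 hC2 hE
  have hGr : (1000 : ℝ) ≤ (G : ℝ) := by exact_mod_cast hG
  have hG0 : (0 : ℝ) < (G : ℝ) := by linarith
  have hG1 : (1 : ℝ) < (G : ℝ) := by linarith
  set A : ℝ := E * Real.sqrt C2 with hA
  have hA0 : 0 ≤ A := by positivity
  -- the threshold
  obtain ⟨I0, hI0⟩ : ∃ I0 : ℕ, A * (1 / (G : ℝ)) ^ I0 * 2 ≤ 1 / 48 := by
    have ht : Tendsto (fun n : ℕ => A * (1 / (G : ℝ)) ^ n * 2) atTop (𝓝 (A * 0 * 2)) := by
      apply Tendsto.mul_const
      apply Tendsto.const_mul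
      apply tendsto_pow_atTop_nhds_zero_of_lt_one (by positivity)
      rw [div_lt_one hG0]; exact hG1
    have := (ht.eventually (Iic_mem_nhds (show A * 0 * 2 < 1 / 48 by norm_num))).exists
    exact this
  set c : ℝ := min c5 ((((G : ℝ) ^ 4) ^ (-2 * (I0 : ℤ))) / C1) with hc
  have hC10 : 0 < C1 := by linarith
  have hc0 : 0 < c := by
    rw [hc]; apply lt_min hc5; positivity
  have hcC : C1 * c ≤ ((G : ℝ) ^ 4) ^ (-2 * (I0 : ℤ)) := by
    calc C1 * c ≤ C1 * ((((G : ℝ) ^ 4) ^ (-2 * (I0 : ℤ))) / C1) := by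
          gcongr; exact min_le_right _ _
      _ = _ := by field_simp
  set K : ℝ := max 1 (1 / c) with hK
  have hK1 : 1 ≤ K := le_max_left _ _
  have hKc : 1 / c ≤ K := le_max_right _ _
  refine ⟨E * K * 4, by positivity, ?_⟩
  intro idx idx' y z T hinj hy hz hT
  set F : ℤ → ℝ≥0∞ := fun k => if (I0 : ℤ) ≤ k then ENNReal.ofReal (A * (G : ℝ) ^ (-k)) else 0
    with hF
  set H : ℕ → ℝ≥0∞ := fun m => ENNReal.ofReal (et G (idx m) * rs (y m)) with hH
  set W : ℕ → ℝ≥0∞ := fun m => ENNReal.ofReal (et G (idx' m) * rs (z m)) with hW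
  set P : ℤ → ℝ≥0∞ := fun k => ENNReal.ofReal (E * K * (G : ℝ) ^ (-|k|)) with hP
  have h48 : ENNReal.ofReal (1 / 48) = 1 / 48 := by
    rw [ENNReal.ofReal_div_of_pos (by norm_num)]; simp
  -- pointwise bound
  have hpt : ∀ m, ENNReal.ofReal (T m) ≤
      (1 / 48) * H m + P (idx m) + ∑' m', F (idx m + idx' m') * W m' := by
    intro m
    rcases hT m with h | ⟨hTE, h⟩
    · calc ENNReal.ofReal (T m) ≤ ENNReal.ofReal ((1 / 48) * (et G (idx m) * rs (y m))) :=
            ENNReal.ofReal_le_ofReal h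
        _ = (1 / 48) * H m := by
            rw [ENNReal.ofReal_mul (by norm_num), h48]
        _ ≤ _ := by
            rw [add_assoc]; exact le_self_add
    · by_cases hb : c ≤ ((G : ℝ) ^ 4) ^ (-2 * idx m) * (y m) ^ 2
      · have h1 := caseB (G : ℝ) hG1.le c K (y m) hc0 hK1 hKc (hy m) (idx m) hb
        calc ENNReal.ofReal (T m) ≤ P (idx m) := by
              apply ENNReal.ofReal_le_ofReal
              calc T m ≤ E * (et G (idx m) * rs (y m)) := hTE
                _ ≤ E * (K * (G : ℝ) ^ (-|idx m|)) := by gcongr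
                _ = _ := by ring
          _ ≤ _ := by
              rw [add_assoc, add_left_comm]; exact le_self_add
      · rcases h with h | ⟨m', h1, h2⟩
        · exact absurd (le_trans (min_le_left _ _) h) hb
        · obtain ⟨h3, h4⟩ := caseC (G : ℝ) hG1 c C1 C2 (y m) (z m') I0 hC1 hC2 hcC (hy m) (hz m')
            (idx m) (idx' m') (not_le.1 hb) h1 h2
          calc ENNReal.ofReal (T m) ≤ F (idx m + idx' m') * W m' := by
                rw [hF, hW]
                simp only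
                rw [if_pos h3, ← ENNReal.ofReal_mul (by positivity)]
                apply ENNReal.ofReal_le_ofReal
                calc T m ≤ E * (et G (idx m) * rs (y m)) := hTE
                  _ ≤ E * (Real.sqrt C2 * (G : ℝ) ^ (-(idx m + idx' m')) *
                        (et G (idx' m') * rs (z m'))) := by gcongr
                  _ = _ := by rw [hA]; ring
            _ ≤ ∑' m', F (idx m + idx' m') * W m' :=
                ENNReal.le_tsum (f := fun m' => F (idx m + idx' m') * W m') m'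
            _ ≤ _ := le_add_self
  -- sums
  have hrr : (1 / (G : ℝ)) ≤ 1 / 2 := by
    apply one_div_le_one_div_of_le <;> linarith
  have hFs : ∑' k, F k ≤ 1 / 48 := by
    have h1 : ∑' k, F k ≤ ENNReal.ofReal (A * (1 / (G : ℝ)) ^ I0) * 2 := by
      apply sumZ (1 / (G : ℝ)) (by positivity) hrr (fun n : ℕ => (I0 : ℤ) + n)
      · intro a b hab; simpa using hab
      · intro k hk
        rw [Function.mem_support] at hk
        have : (I0 : ℤ) ≤ k := by
          by_contra hcon
          exact hk (by simp only [hF]; rw [if_neg hcon])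
        exact ⟨(k - I0).toNat, by simp only; omega⟩
      · intro n
        simp only [hF]
        rw [if_pos (by omega), ← ENNReal.ofReal_mul (by positivity)]
        apply ENNReal.ofReal_le_ofReal
        rw [mul_assoc A ((1 / (G : ℝ)) ^ I0), ← pow_add]
        apply le_of_eq
        congr 1
        rw [zpow_neg, one_div, inv_pow]
        congr 1
    refine h1.trans ?_
    rw [show (2 : ℝ≥0∞) = ENNReal.ofReal 2 by simp, ← ENNReal.ofReal_mul (by positivity), ← h48]
    exact ENNReal.ofReal_le_ofReal hI0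
  have hPs : ∑' k, P k ≤ ENNReal.ofReal (E * K * 4) := by
    have e1 : ∀ k, P k ≤ (if 0 ≤ k then P k else 0) + (if k ≤ 0 then P k else 0) := by
      intro k
      rcases le_total 0 k with h | h
      · rw [if_pos h]; exact le_self_add
      · rw [if_pos h]; exact le_add_self
    have e2 : ∑' k : ℤ, (if 0 ≤ k then P k else 0) ≤ ENNReal.ofReal (E * K) * 2 := by
      apply sumZ (1 / (G : ℝ)) (by positivity) hrr (fun n : ℕ => (n : ℤ))
      · intro a b hab; simpa using hab
      · intro k hk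
        rw [Function.mem_support] at hk
        have : (0 : ℤ) ≤ k := by
          by_contra hcon
          exact hk (if_neg hcon)
        exact ⟨k.toNat, by simp only; omega⟩
      · intro n
        simp only [hP]
        rw [if_pos (by omega), ← ENNReal.ofReal_mul (by positivity)]
        apply ENNReal.ofReal_le_ofReal
        apply le_of_eq
        congr 1
        rw [zpow_neg, one_div, inv_pow]
        congr 1
        rw [← zpow_natCast]; congr 1
        simp
    have e3 : ∑' k : ℤ, (if k ≤ 0 then P k else 0) ≤ ENNReal.ofReal (E * K) * 2 := by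
      apply sumZ (1 / (G : ℝ)) (by positivity) hrr (fun n : ℕ => -(n : ℤ))
      · intro a b hab; simpa using hab
      · intro k hk
        rw [Function.mem_support] at hk
        have : k ≤ 0 := by
          by_contra hcon
          exact hk (if_neg hcon)
        exact ⟨(-k).toNat, by simp only; omega⟩
      · intro n
        simp only [hP]
        rw [if_pos (by omega), ← ENNReal.ofReal_mul (by positivity)]
        apply ENNReal.ofReal_le_ofReal
        apply le_of_eq
        congr 1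
        rw [zpow_neg, one_div, inv_pow]
        congr 1
        rw [← zpow_natCast]; congr 1
        simp
    calc ∑' k, P k ≤ ∑' k : ℤ, ((if 0 ≤ k then P k else 0) + (if k ≤ 0 then P k else 0)) :=
          ENNReal.tsum_le_tsum e1
      _ = ∑' k : ℤ, (if 0 ≤ k then P k else 0) + ∑' k : ℤ, (if k ≤ 0 then P k else 0) :=
          ENNReal.tsum_add
      _ ≤ ENNReal.ofReal (E * K) * 2 + ENNReal.ofReal (E * K) * 2 := add_le_add e2 e3
      _ = ENNReal.ofReal (E * K) * 4 := by rw [← mul_add]; norm_num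
      _ = ENNReal.ofReal (E * K * 4) := by
          rw [ENNReal.ofReal_mul (p := E * K) (by positivity)]; simp
  have hPi : ∑' m, P (idx m) ≤ ∑' k, P k := ENNReal.tsum_comp_le_tsum_of_injective hinj P
  have hFi : ∀ m', ∑' m, F (idx m + idx' m') ≤ 1 / 48 := by
    intro m'
    refine le_trans ?_ hFs
    exact ENNReal.tsum_comp_le_tsum_of_injective (f := fun m => idx m + idx' m')
      (fun a b hab => hinj (by simpa using hab)) F
  calc ∑' m, ENNReal.ofReal (T m)
      ≤ ∑' m, ((1 / 48) * H m + P (idx m) + ∑' m', F (idx m + idx' m') * W m') :=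
        ENNReal.tsum_le_tsum hpt
    _ = (1 / 48) * ∑' m, H m + ∑' m, P (idx m) + ∑' m, ∑' m', F (idx m + idx' m') * W m' := by
        rw [ENNReal.tsum_add, ENNReal.tsum_add, ENNReal.tsum_mul_left]
    _ = (1 / 48) * ∑' m, H m + ∑' m, P (idx m) + ∑' m', ∑' m, F (idx m + idx' m') * W m' := by
        rw [ENNReal.tsum_comm]
    _ = (1 / 48) * ∑' m, H m + ∑' m, P (idx m) + ∑' m', (∑' m, F (idx m + idx' m')) * W m' := by
        simp_rw [ENNReal.tsum_mul_right]
    _ ≤ (1 / 48) * ∑' m, H m + ENNReal.ofReal (E * K * 4) + ∑' m', (1 / 48) * W m' := by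
        gcongr
        · exact hPi.trans hPs
        · exact hFi _
    _ = (1 / 48) * ∑' m, H m + ENNReal.ofReal (E * K * 4) + (1 / 48) * ∑' m', W m' := by
        rw [ENNReal.tsum_mul_left]
    _ = (1 / 48) * ∑' m, H m + (1 / 48) * ∑' m', W m' + ENNReal.ofReal (E * K * 4) := by
        rw [add_right_comm]

end Pool.Agent.W292.LW
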